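import Pool.Agent.W670.ML.Defs

/-!
# Project ML, part UB: the consequence of the upper bound over the rationals
-/

set_option autoImplicit false

namespace Pool.Agent.W19.ML

open NumberField Pool.Agent.W670.ML

theorem fields_finite (hHE : S_HE) (hDI : S_DI) (n : ℕ) (H : Subgroup (Equiv.Perm (Fin n)))
    (X : ℝ) : (fields ℚ n H X).Finite := by
  refine (hHE (AlgebraicClosure ℚ) X).subset ?_
  rintro L ⟨-, hL, hX⟩
  refine ⟨hL, ?_⟩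
  rw [hDI.2.1 (↥L)]
  exact hX

theorem N_mono (hHE : S_HE) (hDI : S_DI) (n : ℕ) (H : Subgroup (Equiv.Perm (Fin n)))
    (X X' : ℝ) (h : X ≤ X') :
    (Pool.Agent.W670.ML.N ℚ n H X : ℝ) ≤ Pool.Agent.W670.ML.N ℚ n H X' := by
  have h1 : fields ℚ n H X ⊆ fields ℚ n H X' := by
    rintro L ⟨hG, hL, hX⟩
    exact ⟨hG, hL, hX.trans h⟩
  exact_mod_cast Set.ncard_le_ncard h1 (fields_finite hHE hDI n H X')

theorem N_small (hDI : S_DI) (n : ℕ) (H : Subgroup (Equiv.Perm (Fin n)))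
    (X : ℝ) (h : X < 1) : (Pool.Agent.W670.ML.N ℚ n H X : ℝ) = 0 := by
  have h1 : fields ℚ n H X = ∅ := by
    rw [Set.eq_empty_iff_forall_notMem]
    rintro L ⟨-, hL, hX⟩
    have h2 := hDI.2.2 ℚ (↥L)
    have h3 : (1 : ℝ) ≤ (relDisc ℚ (↥L) : ℝ) := by exact_mod_cast h2
    exact absurd (le_trans h3 hX) (not_le.2 h)
  unfold Pool.Agent.W670.ML.N
  rw [h1, Set.ncard_empty, Nat.cast_zero]

theorem one_group (hMI : S_MI) (hHE : S_HE) (hDI : S_DI) (hU : Upper ℚ) (n m : ℕ) (hn : 2 ≤ n)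
    (hm : 1 ≤ m) (ε : ℝ) (hε : 0 < ε) (H : Subgroup (Equiv.Perm (Fin n)))
    (hH : H ∈ bigInd n m) : ∃ c : ℝ, 0 ≤ c ∧ ∀ Y : ℝ, 0 < Y →
      (Pool.Agent.W670.ML.N ℚ n H Y : ℝ) ≤ c * Y ^ ((1 : ℝ) / (m : ℝ) + ε) := by
  classical
  unfold bigInd at hH
  rw [Finset.mem_filter] at hH
  obtain ⟨-, htr, hind⟩ := hH
  obtain ⟨m', hm'⟩ := (hMI n H hn htr).1
  have hmm' : m ≤ m' := by
    obtain ⟨g, hg, hg1, hgi⟩ := hm'.1
    rw [hgi]
    exact hind g hg hg1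
  obtain ⟨c, hc, X0, hX0⟩ := hU n H hn htr m' hm' ε hε
  have hX1 : 1 ≤ max X0 1 := le_max_right _ _
  refine ⟨c * (max X0 1) ^ ((1 : ℝ) / (m' : ℝ) + ε), by positivity, fun Y hY => ?_⟩
  have hexp : (0 : ℝ) ≤ (1 : ℝ) / (m' : ℝ) + ε := by positivity
  rcases lt_or_ge Y 1 with hY1 | hY1
  · rw [N_small hDI n H Y hY1]
    positivity
  · have hm0 : (0 : ℝ) < m := by exact_mod_cast hm
    have hle : (1 : ℝ) / (m' : ℝ) + ε ≤ (1 : ℝ) / (m : ℝ) + ε := by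
      have h5 : (1 : ℝ) / (m' : ℝ) ≤ 1 / (m : ℝ) :=
        one_div_le_one_div_of_le hm0 (by exact_mod_cast hmm')
      linarith
    calc (Pool.Agent.W670.ML.N ℚ n H Y : ℝ)
        ≤ Pool.Agent.W670.ML.N ℚ n H (max Y (max X0 1)) :=
          N_mono hHE hDI n H _ _ (le_max_left _ _)
      _ ≤ c * (max Y (max X0 1)) ^ ((1 : ℝ) / (m' : ℝ) + ε) :=
          (hX0 _ ((le_max_left X0 1).trans (le_max_right _ _))).le
      _ ≤ c * (Y * max X0 1) ^ ((1 : ℝ) / (m' : ℝ) + ε) := by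
          refine mul_le_mul_of_nonneg_left ?_ hc.le
          refine Real.rpow_le_rpow (by positivity) ?_ hexp
          refine max_le ?_ ?_
          · exact le_mul_of_one_le_right hY.le hX1
          · exact le_mul_of_one_le_left (by positivity) hY1
      _ = c * (max X0 1) ^ ((1 : ℝ) / (m' : ℝ) + ε) * Y ^ ((1 : ℝ) / (m' : ℝ) + ε) := by
          rw [Real.mul_rpow hY.le (by positivity)]
          ring
      _ ≤ c * (max X0 1) ^ ((1 : ℝ) / (m' : ℝ) + ε) * Y ^ ((1 : ℝ) / (m : ℝ) + ε) :=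
          mul_le_mul_of_nonneg_left (Real.rpow_le_rpow_of_exponent_le hY1 hle) (by positivity)

theorem ub (h1 : S_MI) (h2 : S_HE) (h3 : S_DI) : S_UB := by
  intro hU n m hn hm ε hε
  have h : ∀ H ∈ bigInd n m, ∃ c : ℝ, 0 ≤ c ∧ ∀ Y : ℝ, 0 < Y →
      (Pool.Agent.W670.ML.N ℚ n H Y : ℝ) ≤ c * Y ^ ((1 : ℝ) / (m : ℝ) + ε) :=
    fun H hH => one_group h1 h2 h3 hU n m hn hm ε hε H hH
  choose! c hc0 hc using h
  have hsum : 0 ≤ ∑ H ∈ bigInd n m, c H := Finset.sum_nonneg fun H hH => hc0 H hH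
  refine ⟨∑ H ∈ bigInd n m, c H + 1, by linarith, fun Y hY => ?_⟩
  have hY' : (0 : ℝ) ≤ Y ^ ((1 : ℝ) / (m : ℝ) + ε) := by positivity
  rw [Nat.cast_sum]
  calc ∑ H ∈ bigInd n m, (Pool.Agent.W670.ML.N ℚ n H Y : ℝ)
      ≤ ∑ H ∈ bigInd n m, c H * Y ^ ((1 : ℝ) / (m : ℝ) + ε) :=
        Finset.sum_le_sum fun H hH => hc H hH Y hY
    _ = (∑ H ∈ bigInd n m, c H) * Y ^ ((1 : ℝ) / (m : ℝ) + ε) := by rw [Finset.sum_mul]
    _ ≤ (∑ H ∈ bigInd n m, c H + 1) * Y ^ ((1 : ℝ) / (m : ℝ) + ε) :=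
        mul_le_mul_of_nonneg_right (by linarith) hY'

end Pool.Agent.W19.ML
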